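import Pool.Agent.H418R3.FB.Stmts

/-! Project FB, TaskTreePos (helper510). -/

set_option autoImplicit false

namespace Pool.Agent.H510R3.FB

open Pool.Agent.H418R3.FB

theorem taskTreePos : TaskTreePos := by
  intro hIdx T β hβ
  refine ⟨fun k => (∑ j ∈ Finset.range (k + 1), β j) + k + 1, fun k => by simp only; omega, ?_⟩
  intro s hs hbad
  have hlen : (seg β s.length).length = s.length := by
    simp [seg]
  obtain ⟨i, hi, hlt⟩ := hbad (seg β s.length) (hβ _) hlen
  have hg : (seg β s.length).getD i 0 = β i := by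
    rw [List.getD_eq_getElem _ _ (by rw [hlen]; exact hi)]
    simp [seg]
  rw [hg] at hlt
  obtain ⟨-, h2, h3, -, -⟩ := hIdx s hs
  refine ⟨i, hi, ?_⟩
  intro k hk
  have hik : i ≤ k := by rw [← hk]; exact h3 k
  apply h2 i _ hi
  have h4 : β i ≤ ∑ j ∈ Finset.range (k + 1), β j :=
    Finset.single_le_sum (f := β) (fun _ _ => Nat.zero_le _) (Finset.mem_range.2 (by omega))
  simp only
  omega

end Pool.Agent.H510R3.FB
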